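import Pool.Agent.GEN.StmtsZC
import Pool.Agent.Helper30_Simp2.Assembly

/-!
Row CLK: the relations of the classes.
-/

set_option autoImplicit false

namespace Pool.Agent.GEN.H21

open Finset Pool.Agent.Helper6_Mono Pool.Agent.Helper30_Simp Pool.Agent.Helper30_Simp.H32
  Pool.Agent.Helper30_Simp2 Pool.Agent.Helper30_Simp2.H63 Pool.Agent.GEN

variable {k : Type} [Field k] {σ : Type} [Fintype σ]

theorem iso0 {g : MvPolynomial σ k} (V : TS QZ g) (hμ : V.μ = 0) :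
    OIso (TT0 V) (TE V hμ false ∅) := by
  refine OIso.mk'
    (fun S _ _ x => ⟨x.1, fun i => ⟨fun h _ => (x.2.1 i).1 h, (x.2.1 i).2⟩, x.2.2⟩)
    (fun S _ _ x => ⟨x.1, fun i => ⟨fun h => (x.2.1 i).1 h (Finset.notMem_empty i),
      (x.2.1 i).2⟩, x.2.2⟩) ?_ ?_ ?_ ?_
  · intro S _ _ x
    rfl
  · intro S _ _ x
    rfl
  · intro S S' _ _ _ _ φ c x
    rfl
  · intro S _ _ x b
    rfl

theorem iso1 {g : MvPolynomial σ k} (V : TS QZ g) (hμ : V.μ = 0) :
    OIso (TT1 V hμ) (TE V hμ true ∅) := by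
  refine OIso.mk'
    (fun S _ _ x => ⟨x.1, fun i => ⟨fun h _ => (x.2.1 i).1 h, (x.2.1 i).2⟩, x.2.2⟩)
    (fun S _ _ x => ⟨x.1, fun i => ⟨fun h => (x.2.1 i).1 h (Finset.notMem_empty i),
      (x.2.1 i).2⟩, x.2.2⟩) ?_ ?_ ?_ ?_
  · intro S _ _ x
    rfl
  · intro S _ _ x
    rfl
  · intro S S' _ _ _ _ φ c x
    rfl
  · intro S _ _ x b
    rfl

omit [Fintype σ] in
theorem keep_sub (I : Finset (σ →₀ ℕ)) (K K' : Finset σ) : keep I K K' ⊆ I := by
  intro α hα
  simp only [keep, Finset.mem_filter] at hα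
  exact hα.1

theorem clk (h1 : EmpStmt) (h2 : StkStmt) (h3 : AfkStmt) : ClkStmt := by
  intro k _ _ σ _ R _ L χ f hind I J K hI hJK hKS
  have hemp := h1 k σ f hind I K hI hKS
  have hFT : FTStmt := Helper30_Simp.H51.fts
  constructor
  · have hU : ∀ i, i ∈ (V0 f I J).U ↔ i ∉ freeV I J := by
      intro i
      simp
    have e1 := (h2 k σ R L χ f I J K hI hJK hKS.1 false (V0 f I J) rfl hU rfl
      (fun K' => keep_sub I K K')).2
    have e2 := h3 k σ R L χ f I J K hI hJK hKS.1 false (V0 f I J) rfl hU rfl hemp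
    rw [e2] at e1
    rw [e1]
    refine Finset.sum_congr rfl fun K' _ => ?_
    congr 1
    exact χ.iso ((hFT k σ QZ).1 _ _) (iso0 (V0 f (keep I K K') J) rfl)
  · rintro ⟨w, hw, hwJ⟩
    have hU : ∀ i, i ∈ (VQ f I J w hw hwJ).U ↔ i ∉ freeV I J := by
      intro i
      simp
    have e1 := (h2 k σ R L χ f I J K hI hJK hKS.1 true (VQ f I J w hw hwJ) rfl hU rfl
      (fun K' => keep_sub I K K')).2
    have e2 := h3 k σ R L χ f I J K hI hJK hKS.1 true (VQ f I J w hw hwJ) rfl hU rfl hemp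
    rw [e2] at e1
    rw [e1]
    refine Finset.sum_congr rfl fun K' _ => ?_
    congr 1
    have hw' : ∀ α ∈ keep I K K', ∑ i, w i * (α i : ℚ) = 1 :=
      fun α hα => hw α (keep_sub I K K' hα)
    have hcls : ClsStmt := H63.cls hFT (Helper30_Simp.H39.weights hFT)
      (Helper30_Simp.H39.split hFT)
    rw [Y1w_eq hcls χ f J (keep I K K') w hw' hwJ]
    exact χ.iso ((hFT k σ QZ).2.1 _ _ _) (iso1 (VQ f (keep I K K') J w hw' hwJ) rfl)

end Pool.Agent.GEN.H21
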