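import Pool.Agent.GEN.StmtsZD

/-!
Row LMX: adjacent circuits.
-/

set_option autoImplicit false

namespace Pool.Agent.GEN.H21

open Finset Pool.Agent.GEN

section lin

variable {V W : Type} [AddCommGroup V] [Module ℚ V] [FiniteDimensional ℚ V]
  [AddCommGroup W] [Module ℚ W]

theorem rank_split (f : V →ₗ[ℚ] W) (U A B : Submodule ℚ V) (hA : A ≤ U) (hB : B ≤ U)
    (hBk : B ≤ LinearMap.ker f) :
    Module.finrank ℚ (A.map f) + Module.finrank ℚ B ≤ Module.finrank ℚ U := by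
  have h1 := LinearMap.finrank_range_add_finrank_ker (f.domRestrict U)
  have h2 : Module.finrank ℚ (A.map f) ≤ Module.finrank ℚ (LinearMap.range (f.domRestrict U)) := by
    apply Submodule.finrank_mono
    rintro _ ⟨x, hx, rfl⟩
    exact ⟨⟨x, hA hx⟩, rfl⟩
  have h3 : Module.finrank ℚ B ≤ Module.finrank ℚ (LinearMap.ker (f.domRestrict U)) := by
    have e1 : Module.finrank ℚ ((LinearMap.ker (f.domRestrict U)).map U.subtype) =
        Module.finrank ℚ (LinearMap.ker (f.domRestrict U)) :=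
      LinearEquiv.finrank_eq
        (Submodule.equivMapOfInjective U.subtype U.injective_subtype _).symm
    rw [← e1]
    apply Submodule.finrank_mono
    intro x hx
    refine ⟨⟨x, hB hx⟩, ?_, rfl⟩
    show f x = 0
    exact hBk hx
  omega

/-- if all functionals vanishing on `W` are multiples of one functional -/
theorem card_le_rank_add_one {ι : Type} [Fintype ι] [DecidableEq ι] (W : Submodule ℚ (ι → ℚ))
    (h : ∀ φ : Module.Dual ℚ (ι → ℚ), (∀ w ∈ W, φ w = 0) →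
      ∃ a : ℚ, ∀ i, φ (Pi.single i 1) = a) :
    Fintype.card ι ≤ Module.finrank ℚ W + 1 := by
  have h1 := Subspace.finrank_add_finrank_dualAnnihilator_eq W
  rw [Module.finrank_fintype_fun_eq_card] at h1
  obtain ⟨s, hs⟩ : ∃ s : Module.Dual ℚ (ι → ℚ), ∀ i, s (Pi.single i 1) = 1 := by
    refine ⟨∑ i : ι, LinearMap.proj (R := ℚ) (φ := fun _ : ι => ℚ) i, fun i => ?_⟩
    rw [LinearMap.sum_apply]
    simp [Pi.single_apply]
  have h2 : W.dualAnnihilator ≤ Submodule.span ℚ {s} := by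
    intro φ hφ
    rw [Submodule.mem_dualAnnihilator] at hφ
    obtain ⟨a, ha⟩ := h φ hφ
    rw [Submodule.mem_span_singleton]
    refine ⟨a, ?_⟩
    refine LinearMap.pi_ext' fun i => LinearMap.ext_ring ?_
    show a • s (Pi.single i 1) = φ (Pi.single i 1)
    rw [ha, hs]
    simp
  have h3 := Submodule.finrank_mono h2
  have h4 := finrank_span_le_card (R := ℚ) ({s} : Set (Module.Dual ℚ (ι → ℚ)))
  rw [Set.toFinset_singleton, Finset.card_singleton] at h4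
  omega

theorem card_le_rank {ι : Type} [Fintype ι] [DecidableEq ι] (W : Submodule ℚ (ι → ℚ))
    (h : ∀ φ : Module.Dual ℚ (ι → ℚ), (∀ w ∈ W, φ w = 0) → ∀ i, φ (Pi.single i 1) = 0) :
    Fintype.card ι ≤ Module.finrank ℚ W := by
  have h1 := Subspace.finrank_add_finrank_dualAnnihilator_eq W
  rw [Module.finrank_fintype_fun_eq_card] at h1
  have h2 : W.dualAnnihilator = ⊥ := by
    rw [eq_bot_iff]
    intro φ hφ
    rw [Submodule.mem_dualAnnihilator] at hφ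
    rw [Submodule.mem_bot]
    refine LinearMap.pi_ext' fun i => LinearMap.ext_ring ?_
    exact h φ hφ i
  rw [h2, finrank_bot] at h1
  omega

end lin

variable {σ : Type} [Fintype σ]

omit [Fintype σ] in
theorem vk_mono (I : Finset (σ →₀ ℕ)) {P K : Finset σ} (h : P ⊆ K) : VK I P ≤ VK I K := by
  apply Submodule.span_mono
  rintro v ⟨j, hj, α, hα, β, hβ, h1, h2, rfl⟩
  exact ⟨j, h hj, α, hα, β, hβ, h1, h2, rfl⟩

open scoped Classical in
theorem dimlem (I : Finset (σ →₀ ℕ)) (K P Q : Finset σ) (hK : Circ I K) (hPK : P ⊆ K)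
    (hP : P.Nonempty)
    (hQ : ∀ j ∈ K, j ∉ P → ∀ α ∈ I, α j = 1 → ∀ q ∈ Q, α q = 0) :
    ((∀ c : σ → ℚ, (∀ p ∈ P, ∀ α ∈ I, ∀ β ∈ I, α p = 1 → β p = 1 →
        ∑ q ∈ Q, c q * (α q : ℚ) = ∑ q ∈ Q, c q * (β q : ℚ)) → ∃ a, ∀ q ∈ Q, c q = a) →
      Q.card ≤ P.card) ∧
    ((∀ c : σ → ℚ, (∀ p ∈ P, ∀ α ∈ I, ∀ β ∈ I, α p = 1 → β p = 1 →
        ∑ q ∈ Q, c q * (α q : ℚ) = ∑ q ∈ Q, c q * (β q : ℚ)) → ∀ q ∈ Q, c q = 0) →
      Q.card + 1 ≤ P.card) := by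
  obtain ⟨⟨hst, hlt⟩, hcirc⟩ := hK
  let f : (σ → ℚ) →ₗ[ℚ] (Q → ℚ) := LinearMap.funLeft ℚ ℚ (fun q : Q => (q : σ))
  have hf : ∀ (v : σ → ℚ) (q : Q), f v q = v q := fun v q => rfl
  have hker : VK I (K \ P) ≤ LinearMap.ker f := by
    unfold VK
    rw [Submodule.span_le]
    rintro v ⟨j, hj, α, hα, β, hβ, h1, h2, rfl⟩
    rw [SetLike.mem_coe, LinearMap.mem_ker]
    funext q
    rw [Finset.mem_sdiff] at hj
    rw [hf]
    show ((α (q : σ) : ℚ) - (β (q : σ) : ℚ)) = 0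
    rw [hQ j hj.1 hj.2 α hα h1 q q.2, hQ j hj.1 hj.2 β hβ h2 q q.2]
    simp
  have hsp := rank_split f (VK I K) (VK I P) (VK I (K \ P)) (vk_mono I hPK)
    (vk_mono I Finset.sdiff_subset) hker
  have hcd : (K \ P).card + P.card = K.card := Finset.card_sdiff_add_card_eq_card hPK
  have hrest : (K \ P).card ≤ Module.finrank ℚ (VK I (K \ P)) := by
    by_cases he : (K \ P).Nonempty
    · refine hcirc (K \ P) Finset.sdiff_subset he ?_
      intro h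
      rw [h] at hcd
      have := hP.card_pos
      omega
    · rw [Finset.not_nonempty_iff_eq_empty] at he
      rw [he]
      simp
  have hφ : ∀ φ : Module.Dual ℚ (Q → ℚ), (∀ w ∈ (VK I P).map f, φ w = 0) →
      ∀ p ∈ P, ∀ α ∈ I, ∀ β ∈ I, α p = 1 → β p = 1 →
        ∑ q ∈ Q, (if h : q ∈ Q then φ (Pi.single ⟨q, h⟩ 1) else 0) * (α q : ℚ) =
          ∑ q ∈ Q, (if h : q ∈ Q then φ (Pi.single ⟨q, h⟩ 1) else 0) * (β q : ℚ) := by
    intro φ hφ p hp α hα β hβ h1 h2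
    have h3 := hφ (f (fun i => (α i : ℚ) - (β i : ℚ)))
      (Submodule.mem_map_of_mem (Submodule.subset_span ⟨p, hp, α, hα, β, hβ, h1, h2, rfl⟩))
    have h4 : ∀ v : Q → ℚ, φ v = ∑ q : Q, v q * φ (Pi.single q 1) := by
      intro v
      rw [LinearMap.pi_apply_eq_sum_univ φ v]
      refine Finset.sum_congr rfl fun q _ => ?_
      rw [smul_eq_mul]
      congr 2
      funext j
      simp [Pi.single_apply, eq_comm]
    have h5 : ∀ γ : σ →₀ ℕ,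
        ∑ q ∈ Q, (if h : q ∈ Q then φ (Pi.single ⟨q, h⟩ 1) else 0) * (γ q : ℚ) =
        ∑ q : Q, (γ (q : σ) : ℚ) * φ (Pi.single q 1) := by
      intro γ
      rw [← Finset.sum_coe_sort]
      refine Finset.sum_congr rfl fun q _ => ?_
      rw [dif_pos q.2, mul_comm]
    rw [h5, h5, ← sub_eq_zero, ← Finset.sum_sub_distrib, ← h3, h4]
    refine Finset.sum_congr rfl fun q _ => ?_
    rw [hf, sub_mul]
  constructor
  · intro hc
    have h6 := card_le_rank_add_one ((VK I P).map f) (by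
      intro φ h7
      obtain ⟨a, ha⟩ := hc _ (hφ φ h7)
      refine ⟨a, fun i => ?_⟩
      have h8 := ha i i.2
      rw [dif_pos i.2] at h8
      exact h8)
    rw [Fintype.card_coe] at h6
    omega
  · intro hc
    have h6 := card_le_rank ((VK I P).map f) (by
      intro φ h7 i
      have h8 := hc _ (hφ φ h7) i i.2
      rw [dif_pos i.2] at h8
      exact h8)
    rw [Fintype.card_coe] at h6
    omega

omit [Fintype σ] in
theorem uniq {I : Finset (σ →₀ ℕ)} {K : Finset σ} (hK : ∀ α ∈ I, ∑ j ∈ K, α j ≤ 1)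
    {α : σ →₀ ℕ} (hα : α ∈ I) {i j : σ} (hi : i ∈ K) (hj : j ∈ K) (hij : i ≠ j)
    (h : α i ≠ 0) : α j = 0 := by
  classical
  have h1 : ({i, j} : Finset σ) ⊆ K := by
    intro x hx
    rw [Finset.mem_insert, Finset.mem_singleton] at hx
    rcases hx with rfl | rfl
    · exact hi
    · exact hj
  have h2 := Finset.sum_le_sum_of_subset (f := fun j => α j) h1
  rw [Finset.sum_pair hij] at h2
  have h3 := hK α hα
  omega

omit [Fintype σ] in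
theorem one_of_ne {I : Finset (σ →₀ ℕ)} {K : Finset σ} (hK : ∀ α ∈ I, ∑ j ∈ K, α j ≤ 1)
    {α : σ →₀ ℕ} (hα : α ∈ I) {i : σ} (hi : i ∈ K) (h : α i ≠ 0) : α i = 1 := by
  have h2 := Finset.single_le_sum (f := fun j => α j) (fun _ _ => Nat.zero_le _) hi
  have h3 := hK α hα
  have h4 : α i ≤ ∑ j ∈ K, α j := h2
  omega

omit [Fintype σ] in
theorem ev {I : Finset (σ →₀ ℕ)} {K Q : Finset σ} (hK : ∀ α ∈ I, ∑ j ∈ K, α j ≤ 1)
    (hQ : Q ⊆ K) (c : σ → ℚ) {α : σ →₀ ℕ} (hα : α ∈ I) {q : σ} (hq : q ∈ Q) (h : α q = 1) :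
    ∑ x ∈ Q, c x * (α x : ℚ) = c q := by
  rw [Finset.sum_eq_single q]
  · rw [h]
    simp
  · intro x hx hxq
    rw [uniq hK hα (hQ hq) (hQ hx) (Ne.symm hxq) (by omega)]
    simp
  · intro h'
    exact absurd hq h'

omit [Fintype σ] in
theorem sum_one {I : Finset (σ →₀ ℕ)} {K Q : Finset σ} (hK : ∀ α ∈ I, ∑ j ∈ K, α j ≤ 1)
    (hQ : Q ⊆ K) {α : σ →₀ ℕ} (hα : α ∈ I) {q : σ} (hq : q ∈ Q) (h : α q = 1) :
    ∑ x ∈ Q, α x = 1 := by
  have h1 := Finset.sum_le_sum_of_subset (f := fun j => α j) hQ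
  have h2 := Finset.single_le_sum (f := fun j => α j) (fun _ _ => Nat.zero_le _) hq
  have h3 := hK α hα
  have h4 : α q ≤ ∑ j ∈ Q, α j := h2
  have h5 : ∑ j ∈ Q, α j ≤ ∑ j ∈ K, α j := h1
  omega

theorem lmx : LmxStmt := by
  classical
  intro σ _ I K₁ K₂ h1 h2 hadj
  obtain ⟨j₁, hj₁, j₂, hj₂, hne, α₀, hα₀, hα1, hα2⟩ := hadj
  have s1 : ∀ α ∈ I, ∑ j ∈ K₁, α j ≤ 1 := h1.1.1.2.1
  have s2 : ∀ α ∈ I, ∑ j ∈ K₂, α j ≤ 1 := h2.1.1.2.1
  obtain ⟨adj, hadj⟩ : ∃ adj : σ → σ → Prop, ∀ p q, adj p q ↔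
      (p ≠ q ∧ ∃ α ∈ I, α p = 1 ∧ α q = 1) := ⟨_, fun p q => Iff.rfl⟩
  have ad1 : ∀ p ∈ K₁, ∀ q ∈ K₂, adj p q → p ∉ K₂ := by
    intro p _ q hq h hp
    obtain ⟨hpq, α, hα, e1, e2⟩ := (hadj p q).1 h
    have := uniq s2 hα hp hq hpq (by omega)
    omega
  have ad2 : ∀ p ∈ K₁, ∀ q ∈ K₂, adj p q → q ∉ K₁ := by
    intro p hp q _ h hq
    obtain ⟨hpq, α, hα, e1, e2⟩ := (hadj p q).1 h
    have := uniq s1 hα hp hq hpq (by omega)
    omega
  have hadj12 : adj j₁ j₂ := (hadj _ _).2 ⟨hne, α₀, hα₀, hα1, hα2⟩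
  obtain ⟨st, hst⟩ : ∃ st : σ → σ → Prop, ∀ q q', st q q' ↔
      (q' ∈ K₂ ∧ ∃ p ∈ K₁, adj p q ∧ adj p q') := ⟨_, fun q q' => Iff.rfl⟩
  have rK : ∀ q, Relation.ReflTransGen st j₂ q → q ∈ K₂ := by
    intro q h
    cases h with
    | refl => exact hj₂
    | tail _ h3 => exact ((hst _ _).1 h3).1
  have rP : ∀ q, Relation.ReflTransGen st j₂ q → ∃ p ∈ K₁, adj p q := by
    intro q h
    cases h with
    | refl => exact ⟨j₁, hj₁, hadj12⟩
    | tail _ h3 =>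
      obtain ⟨_, p, hp, _, h4⟩ := (hst _ _).1 h3
      exact ⟨p, hp, h4⟩
  obtain ⟨Q, hQ⟩ : ∃ Q : Finset σ, ∀ q, q ∈ Q ↔ Relation.ReflTransGen st j₂ q := by
    refine ⟨K₂.filter fun q => Relation.ReflTransGen st j₂ q, fun q => ?_⟩
    rw [Finset.mem_filter]
    exact ⟨fun h => h.2, fun h => ⟨rK q h, h⟩⟩
  obtain ⟨P, hP⟩ : ∃ P : Finset σ, ∀ p, p ∈ P ↔ (p ∈ K₁ ∧ ∃ q ∈ Q, adj p q) := by
    refine ⟨K₁.filter fun p => ∃ q ∈ Q, adj p q, fun p => ?_⟩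
    rw [Finset.mem_filter]
  have hQK : Q ⊆ K₂ := fun q hq => rK q ((hQ q).1 hq)
  have hPK : P ⊆ K₁ := fun p hp => ((hP p).1 hp).1
  have hj2Q : j₂ ∈ Q := (hQ _).2 Relation.ReflTransGen.refl
  have hj1P : j₁ ∈ P := (hP _).2 ⟨hj₁, j₂, hj2Q, hadj12⟩
  have hPn2 : ∀ p ∈ P, p ∉ K₂ := by
    intro p hp
    obtain ⟨hp1, q, hq, h⟩ := (hP p).1 hp
    exact ad1 p hp1 q (hQK hq) h
  have hQn1 : ∀ q ∈ Q, q ∉ K₁ := by
    intro q hq
    obtain ⟨p, hp, h⟩ := rP q ((hQ q).1 hq)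
    exact ad2 p hp q (hQK hq) h
  have clQ : ∀ p ∈ P, ∀ q' ∈ K₂, adj p q' → q' ∈ Q := by
    intro p hp q' hq' h
    obtain ⟨hp1, q, hq, h'⟩ := (hP p).1 hp
    exact (hQ q').2 (((hQ q).1 hq).tail ((hst _ _).2 ⟨hq', p, hp1, h', h⟩))
  have hPQ1 : ∀ α ∈ I, ∀ p ∈ P, α p = 1 → ∀ q ∈ K₂, α q = 1 → q ∈ Q := by
    intro α hα p hp e1 q hq e2
    refine clQ p hp q hq ((hadj p q).2 ⟨?_, α, hα, e1, e2⟩)
    rintro rfl
    exact hPn2 p hp hq
  have hPQ2 : ∀ α ∈ I, ∀ q ∈ Q, α q = 1 → ∀ p ∈ K₁, α p = 1 → p ∈ P := by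
    intro α hα q hq e1 p hp e2
    refine (hP p).2 ⟨hp, q, hq, (hadj p q).2 ⟨?_, α, hα, e2, e1⟩⟩
    rintro rfl
    exact hQn1 p hq hp
  -- first dimension estimate
  have hconn1 : ∀ c : σ → ℚ, (∀ p ∈ P, ∀ α ∈ I, ∀ β ∈ I, α p = 1 → β p = 1 →
      ∑ q ∈ Q, c q * (α q : ℚ) = ∑ q ∈ Q, c q * (β q : ℚ)) → ∀ q ∈ Q, c q = c j₂ := by
    intro c hc q hq
    have hr := (hQ q).1 hq
    clear hq
    induction hr with
    | refl => rfl
    | tail hr h3 ih =>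
      rename_i b d
      have hbQ : b ∈ Q := (hQ _).2 hr
      have hdQ : d ∈ Q := (hQ _).2 (hr.tail h3)
      obtain ⟨_, p, hp, h4, h5⟩ := (hst _ _).1 h3
      have hpP : p ∈ P := (hP p).2 ⟨hp, b, hbQ, h4⟩
      obtain ⟨_, α, hα, e1, e2⟩ := (hadj _ _).1 h4
      obtain ⟨_, β, hβ, e3, e4⟩ := (hadj _ _).1 h5
      have h6 := hc p hpP α hα β hβ e1 e3
      rw [ev s2 hQK c hα hbQ e2, ev s2 hQK c hβ hdQ e4] at h6
      rw [← h6, ih]
  have hd1 := dimlem I K₁ P Q h1 hPK ⟨j₁, hj1P⟩ (by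
    intro j hj hjP α hα e1 q hq
    by_contra h
    exact hjP (hPQ2 α hα q hq (one_of_ne s2 hα (hQK hq) h) j hj e1))
  have hle1 : Q.card ≤ P.card := hd1.1 fun c hc => ⟨c j₂, hconn1 c hc⟩
  -- second dimension estimate
  have hconn2 : ∀ c : σ → ℚ, (∀ q ∈ Q, ∀ α ∈ I, ∀ β ∈ I, α q = 1 → β q = 1 →
      ∑ p ∈ P, c p * (α p : ℚ) = ∑ p ∈ P, c p * (β p : ℚ)) → ∀ p ∈ P, c p = c j₁ := by
    intro c hc
    have key : ∀ q ∈ Q, ∀ p ∈ K₁, ∀ p' ∈ K₁, adj p q → adj p' q → c p = c p' := by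
      intro q hq p hp p' hp' h4 h5
      obtain ⟨_, α, hα, e1, e2⟩ := (hadj _ _).1 h4
      obtain ⟨_, β, hβ, e3, e4⟩ := (hadj _ _).1 h5
      have h6 := hc q hq α hα β hβ e2 e4
      rwa [ev s1 hPK c hα ((hP p).2 ⟨hp, q, hq, h4⟩) e1,
        ev s1 hPK c hβ ((hP p').2 ⟨hp', q, hq, h5⟩) e3] at h6
    have key2 : ∀ q, Relation.ReflTransGen st j₂ q → ∀ p ∈ K₁, adj p q → c p = c j₁ := by
      intro q hr
      induction hr with
      | refl => exact fun p hp h => key j₂ hj2Q p hp j₁ hj₁ h hadj12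
      | tail hr h3 ih =>
        rename_i b d
        intro p hp h
        obtain ⟨_, p0, hp0, h4, h5⟩ := (hst _ _).1 h3
        rw [key d ((hQ _).2 (hr.tail h3)) p hp p0 hp0 h h5]
        exact ih p0 hp0 h4
    intro p hp
    obtain ⟨hp1, q, hq, h⟩ := (hP p).1 hp
    exact key2 q ((hQ q).1 hq) p hp1 h
  have hd2 := dimlem I K₂ Q P h2 hQK ⟨j₂, hj2Q⟩ (by
    intro j hj hjQ α hα e1 p hp
    by_contra h
    exact hjQ (hPQ1 α hα p hp (one_of_ne s1 hα (hPK hp) h) j hj e1))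
  have hle2 : P.card ≤ Q.card := hd2.1 fun c hc => ⟨c j₁, hconn2 c hc⟩
  -- no missing variables
  have hmis1 : ∀ α ∈ I, ∀ p ∈ P, α p = 1 → ∃ q ∈ Q, α q = 1 := by
    intro α hα p hp e1
    by_contra hno
    have h0 : ∀ q ∈ Q, α q = 0 := by
      intro q hq
      by_contra h
      exact hno ⟨q, hq, one_of_ne s2 hα (hQK hq) h⟩
    have h3 : Q.card + 1 ≤ P.card := by
      refine hd1.2 fun c hc q hq => ?_
      obtain ⟨hp1, q0, hq0, h⟩ := (hP p).1 hp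
      obtain ⟨_, β, hβ, e3, e4⟩ := (hadj _ _).1 h
      have h6 := hc p hp α hα β hβ e1 e3
      rw [ev s2 hQK c hβ hq0 e4, Finset.sum_eq_zero (fun x hx => by rw [h0 x hx]; simp)] at h6
      rw [hconn1 c hc q hq, ← hconn1 c hc q0 hq0, ← h6]
    omega
  have hmis2 : ∀ α ∈ I, ∀ q ∈ Q, α q = 1 → ∃ p ∈ P, α p = 1 := by
    intro α hα q hq e1
    by_contra hno
    have h0 : ∀ p ∈ P, α p = 0 := by
      intro p hp
      by_contra h
      exact hno ⟨p, hp, one_of_ne s1 hα (hPK hp) h⟩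
    have h3 : P.card + 1 ≤ Q.card := by
      refine hd2.2 fun c hc p hp => ?_
      obtain ⟨p0, hp0, h⟩ := rP q ((hQ q).1 hq)
      have hp0P : p0 ∈ P := (hP p0).2 ⟨hp0, q, hq, h⟩
      obtain ⟨_, β, hβ, e3, e4⟩ := (hadj _ _).1 h
      have h6 := hc q hq α hα β hβ e1 e4
      rw [ev s1 hPK c hβ hp0P e3, Finset.sum_eq_zero (fun x hx => by rw [h0 x hx]; simp)] at h6
      rw [hconn2 c hc p hp, ← hconn2 c hc p0 hp0P, ← h6]
    omega
  refine ⟨P, Q, hPK, hQK, Finset.disjoint_left.2 hPn2, ?_⟩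
  refine
    { disj := fun j hj hjQ => hPn2 j hj (hQK hjQ)
      ne := ⟨j₁, hj1P⟩
      card := le_antisymm hle2 hle1
      once := ?_
      occP := fun j hj => h1.1.1.2.2 j (hPK hj)
      occQ := fun j hj => h2.1.1.2.2 j (hQK hj)
      conn := ?_ }
  · intro α hα
    by_cases hex : ∃ j, (j ∈ P ∨ j ∈ Q) ∧ α j ≠ 0
    · left
      obtain ⟨j, hj, hne0⟩ := hex
      rcases hj with hj | hj
      · have e1 := one_of_ne s1 hα (hPK hj) hne0
        obtain ⟨q, hq, e2⟩ := hmis1 α hα j hj e1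
        exact ⟨sum_one s1 hPK hα hj e1, sum_one s2 hQK hα hq e2⟩
      · have e1 := one_of_ne s2 hα (hQK hj) hne0
        obtain ⟨p, hp, e2⟩ := hmis2 α hα j hj e1
        exact ⟨sum_one s1 hPK hα hp e2, sum_one s2 hQK hα hj e1⟩
    · right
      intro j hj
      by_contra h
      exact hex ⟨j, hj, h⟩
  · intro Q' hQ' hne' hneq
    by_contra hno
    have hno' : ∀ p ∈ P, ∀ α ∈ I, ∀ β ∈ I, α p = 1 → β p = 1 → ∀ q ∈ Q', α q = 1 →
        ∀ q' ∈ Q, β q' = 1 → q' ∈ Q' := by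
      intro p hp α hα β hβ e1 e2 q hq e3 q' hq' e4
      by_contra h
      exact hno ⟨p, hp, α, hα, β, hβ, e1, e2, ⟨q, hq, e3⟩, q', hq', h, e4⟩
    have key : ∀ q, Relation.ReflTransGen st j₂ q → (q ∈ Q' ↔ j₂ ∈ Q') := by
      intro q hr
      induction hr with
      | refl => exact Iff.rfl
      | tail hr h3 ih =>
        rename_i b d
        rw [← ih]
        have hbQ : b ∈ Q := (hQ _).2 hr
        have hdQ : d ∈ Q := (hQ _).2 (hr.tail h3)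
        obtain ⟨_, p, hp, h4, h5⟩ := (hst _ _).1 h3
        have hpP : p ∈ P := (hP p).2 ⟨hp, b, hbQ, h4⟩
        obtain ⟨_, α, hα, e1, e2⟩ := (hadj _ _).1 h4
        obtain ⟨_, β, hβ, e3, e4⟩ := (hadj _ _).1 h5
        exact ⟨fun h => hno' p hpP β hβ α hα e3 e1 d h e4 b hbQ e2,
          fun h => hno' p hpP α hα β hβ e1 e3 b h e2 d hdQ e4⟩
    obtain ⟨x, hx⟩ := hne'
    have hj2' : j₂ ∈ Q' := (key x ((hQ x).1 (hQ' hx))).1 hx
    apply hneq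
    exact Finset.Subset.antisymm hQ' fun q hq => (key q ((hQ q).1 hq)).2 hj2'

end Pool.Agent.GEN.H21
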